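import Pool.Agent.helper37.NE.SpecA
import Pool.Agent.helper23.ND.GCL

set_option autoImplicit false

namespace Pool.Agent.NE

open Pool.Agent.helper58.DC Pool.Agent.DI Pool.Agent.GR Pool.Agent.OB Pool.Agent.DR Pool.Agent.FI Pool.Agent.FI3 Pool.Agent.FI4 Pool.Agent.FI4I Pool.Agent.LE Pool.Agent.L5 Pool.Agent.NAB Pool.Agent.ND

theorem YCL_nor {G : Type} [Group G] (K : Subgroup G) (s : G) (hs : s ∈ nz K) : K ⊔ Subgroup.zpowers s ≤ nz K := by
  refine sup_le Subgroup.le_normalizer ?_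
  rw [Subgroup.zpowers_le]
  exact hs

theorem YCL_mem {G : Type} [Group G] (K : Subgroup G) (s : G) (hs : s ∈ nz K) (x : G) (hx : x ∈ K ⊔ Subgroup.zpowers s) :
    ∃ k : ℤ, s ^ k * x ∈ K := by
  have hcj : ∀ (b : ℤ) (y : G), y ∈ K → s ^ b * y * (s ^ b)⁻¹ ∈ K := fun b y hy =>
    (Subgroup.mem_normalizer_iff.1 ((nz K).zpow_mem hs b) _).1 hy
  let T : Subgroup G :=
    { carrier := {x | ∃ k : ℤ, s ^ k * x ∈ K}
      one_mem' := ⟨0, by simp [K.one_mem]⟩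
      mul_mem' := by
        rintro x y ⟨a, ha⟩ ⟨b, hb⟩
        refine ⟨b + a, ?_⟩
        have h1 : s ^ (b + a) * (x * y) = (s ^ b * (s ^ a * x) * (s ^ b)⁻¹) * (s ^ b * y) := by
          rw [zpow_add]
          group
        rw [h1]
        exact K.mul_mem (hcj b _ ha) hb
      inv_mem' := by
        rintro x ⟨a, ha⟩
        refine ⟨-a, ?_⟩
        have h1 : s ^ (-a) * x⁻¹ = s ^ (-a) * (s ^ a * x)⁻¹ * (s ^ (-a))⁻¹ := by group
        rw [h1]
        exact hcj (-a) _ (K.inv_mem ha) }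
  have h1 : K ⊔ Subgroup.zpowers s ≤ T := by
    refine sup_le (fun y hy => ⟨0, by simpa using hy⟩) ?_
    rw [Subgroup.zpowers_le]
    exact ⟨-1, by simp [K.one_mem]⟩
  exact h1 hx

theorem YCL_cyc {G : Type} [Group G] (K : Subgroup G) (s : G) (hs : s ∈ nz K) :
    CycQ (K.subgroupOf (K ⊔ Subgroup.zpowers s)) := by
  refine ⟨?_, ⟨s, Subgroup.mem_sup_right (Subgroup.mem_zpowers s)⟩, ?_⟩
  · constructor
    intro n hn g
    have hg := YCL_nor K s hs g.2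
    rw [Subgroup.mem_subgroupOf] at hn ⊢
    exact (Subgroup.mem_normalizer_iff.1 hg _).1 hn
  · intro x
    obtain ⟨k, hk⟩ := YCL_mem K s hs x x.2
    exact ⟨k, by rw [Subgroup.mem_subgroupOf]; exact hk⟩

open Classical in
theorem YCL (hIRT : IRT_stmt) (hB9 : B9_stmt) (hB9b : B9b_stmt) (hCCJ : CCJ_stmt) (hB2 : B2_stmt) : YCL_stmt := by
  intro G _ _ K s hs
  set L : Subgroup G := K ⊔ Subgroup.zpowers s with hL
  have hle : K ≤ L := le_sup_left
  have hno : L ≤ nz K := YCL_nor K s hs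
  have hcyc : CycQ (K.subgroupOf L) := YCL_cyc K s hs
  have hinf : L ⊓ K = K := inf_eq_right.2 hle
  obtain ⟨h9, -, -⟩ := hB9 L (K.subgroupOf L) hcyc
  -- the multiplicities for a character over `ψ`
  have key : ∀ (η ψ : G → ℂ), ψ ∈ IrrOn K → OverP K L η ψ →
      ∀ ξ ∈ IrrOn K, mt K η ξ = if ∃ n ∈ L, ξ = funMap (MulAut.conj n) ψ then ((1 : ℕ) : ℂ) else 0 := by
    intro η ψ hψ hov
    obtain ⟨-, hc2, -, -⟩ := hCCJ G K L hno ψ hψ
    have hovE : OverE K L η ψ 1 := by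
      intro x hx
      rw [hov x hx, Nat.cast_one, one_mul]
    have h3 := (hc2 η 1).1 hovE
    exact fun ξ hξ => GCL_mt hB2 K η ξ hξ (fun θ => if ∃ n ∈ L, θ = funMap (MulAut.conj n) ψ then ((1 : ℕ) : ℂ) else 0) h3
  have hex : ∀ η ∈ IrrOn L, ∃ ψ ∈ IrrOn K, OverP K L η ψ := by
    intro η hη
    obtain ⟨ψ', hψ', hov⟩ := h9 (B10_res L η) hη.2
    have hres : B10_res L (B10_ex L ψ') = ψ' := B10_res_ex L ψ'
    have hsup : ∀ g, g ∉ L → B10_ex L ψ' g = 0 := B10_ex_supp L ψ'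
    refine ⟨B10_ex L ψ', ?_, ?_⟩
    · have h1 := (B10_irrK L hIRT K (B10_ex L ψ') hsup).2 (by rw [hres]; exact hψ')
      rwa [hinf] at h1
    · have h1 := (B10_over L K η (B10_ex L ψ') hsup).2 (by rw [hres]; exact hov)
      rwa [hinf] at h1
  have hone : ∀ ψ : G → ℂ, ∃ n ∈ L, ψ = funMap (MulAut.conj n) ψ := by
    intro ψ
    refine ⟨1, L.one_mem, ?_⟩
    funext g
    simp [funMap]
  refine ⟨?_, ?_, ?_, ?_⟩
  · intro φ hφ
    obtain ⟨ψ, hψ, hov⟩ := hex φ hφ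
    refine ⟨ψ, hψ, ?_⟩
    rw [key φ ψ hψ hov ψ hψ, if_pos (hone ψ)]
    norm_num
  · intro ψ hψ
    have hsup : ∀ g, g ∉ L → ψ g = 0 := fun g hg => ((hB2 G K).2 ψ hψ).2.2.2.1 g (fun h => hg (hle h))
    have h1 : B10_res L ψ ∈ IrrOn (K.subgroupOf L) := (B10_irrK L hIRT K ψ hsup).1 (by rw [hinf]; exact hψ)
    obtain ⟨φ', hφ', hov⟩ := hB9b L (K.subgroupOf L) hcyc (B10_res L ψ) h1
    have hres : B10_res L (B10_ex L φ') = φ' := B10_res_ex L φ'
    refine ⟨B10_ex L φ', B10_ex_irr L φ' hφ', ?_⟩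
    have h2 : OverP K L (B10_ex L φ') ψ := by
      have h3 := (B10_over L K (B10_ex L φ') ψ hsup).2 (by rw [hres]; exact hov)
      rwa [hinf] at h3
    rw [key _ ψ hψ h2 ψ hψ, if_pos (hone ψ)]
    norm_num
  · intro φ hφ ψ hψ
    obtain ⟨ψ₀, hψ₀, hov⟩ := hex φ hφ
    rw [key φ ψ₀ hψ₀ hov ψ hψ]
    split_ifs
    · exact Or.inr Nat.cast_one
    · exact Or.inl rfl
  · intro φ hφ ψ hψ ψ' hψ' hne
    obtain ⟨ψ₀, hψ₀, hov⟩ := hex φ hφ
    rw [key φ ψ₀ hψ₀ hov ψ hψ] at hne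
    have h1 : ∃ n ∈ L, ψ = funMap (MulAut.conj n) ψ₀ := by
      by_contra h
      exact hne (if_neg h)
    obtain ⟨n, hn, e1⟩ := h1
    have hcl : ∀ a : G, ∀ f : G → ℂ, cjF a f = funMap (MulAut.conj a) f := by
      intro a f
      funext g
      simp [cjF, funMap]
    have hcj : ∀ (a b : G) (f : G → ℂ), cjF a (cjF b f) = cjF (a * b) f := by
      intro a b f
      funext g
      simp [cjF, funMap, mul_assoc]
    rw [key φ ψ₀ hψ₀ hov ψ' hψ']
    constructor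
    · intro h2
      have h3 : ∃ n ∈ L, ψ' = funMap (MulAut.conj n) ψ₀ := by
        by_contra h
        exact h2 (if_neg h)
      obtain ⟨m, hm, e2⟩ := h3
      have h4 : ψ' = cjF (m * n⁻¹) ψ := by
        rw [e1, ← hcl, hcj, e2, ← hcl]
        congr 1
        group
      obtain ⟨k, hk⟩ := YCL_mem K s hs (m * n⁻¹) (L.mul_mem hm (L.inv_mem hn))
      -- m n⁻¹ = s ^ (-k) * c
      set c : G := s ^ k * (m * n⁻¹) with hc
      have h5 : m * n⁻¹ = s ^ (-k) * c := by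
        rw [hc]
        group
      have h6 : cjF c ψ = ψ := by
        funext g
        have h7 := ((hB2 G K).2 ψ hψ).2.1 g c⁻¹ (K.inv_mem hk)
        simpa [cjF, funMap] using h7
      obtain ⟨j, hj⟩ : ∃ j : ℕ, s ^ (-k) = s ^ j := by
        have := (isOfFinOrder_of_finite s).mem_powers_iff_mem_zpowers.2 (Subgroup.zpow_mem_zpowers s (-k))
        obtain ⟨j, hj⟩ := Submonoid.mem_powers_iff _ _ |>.1 this
        exact ⟨j, hj.symm⟩
      refine ⟨j, ?_⟩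
      rw [h4, h5, ← hcj, h6, hj]
    · rintro ⟨k, hk⟩
      have hsL : s ∈ L := Subgroup.mem_sup_right (Subgroup.mem_zpowers s)
      rw [if_pos]
      · norm_num
      · refine ⟨s ^ k * n, L.mul_mem (L.pow_mem hsL k) hn, ?_⟩
        rw [hk, e1, ← hcl, ← hcl, hcj]

end Pool.Agent.NE
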